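import Pool.Agent.H83.UE.Targets2

/-!
# Local holomorphic branches of the inverse of the iterates (row BR)
-/

set_option autoImplicit false

open Polynomial MeasureTheory Filter Topology Set
open scoped OnePoint ComplexConjugate ComplexOrder Laplacian ENNReal Nat

namespace Pool.Agent.H19.UDA

open Pool.Agent.H83.UE

/-- the local inverse of an analytic function -/
theorem br_loc {h : ℂ → ℂ} {a : ℂ} (ha : AnalyticAt ℂ h a) (hd : deriv h a ≠ 0) :
    ∃ ξ : ℂ → ℂ, ContinuousAt ξ (h a) ∧ ξ (h a) = a ∧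
      ∀ᶠ z in 𝓝 (h a), ContinuousAt ξ z ∧ ∀ᶠ y in 𝓝 z, h (ξ y) = y := by
  have hs := ha.hasStrictDerivAt.hasStrictFDerivAt_equiv hd
  have h1 := hs.image_mem_toOpenPartialHomeomorph_target
  have h2 := hs.mem_toOpenPartialHomeomorph_source
  refine ⟨(hs.toOpenPartialHomeomorph h).symm,
    (hs.toOpenPartialHomeomorph h).continuousAt_symm h1,
    (hs.toOpenPartialHomeomorph h).left_inv h2, ?_⟩
  have ho : IsOpen (hs.toOpenPartialHomeomorph h).target :=
    (hs.toOpenPartialHomeomorph h).open_target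
  filter_upwards [ho.mem_nhds h1] with z hz
  refine ⟨(hs.toOpenPartialHomeomorph h).continuousAt_symm hz, ?_⟩
  filter_upwards [ho.mem_nhds hz] with y hy
  exact (hs.toOpenPartialHomeomorph h).right_inv hy

theorem rat_analytic (P Q : ℂ[X]) {x : ℂ} (hx : Q.eval x ≠ 0) :
    AnalyticAt ℂ (fun y => P.eval y / Q.eval y) x := by
  have h1 : AnalyticAt ℂ (fun y => P.eval y) x := P.differentiable.analyticAt x
  have h2 : AnalyticAt ℂ (fun y => Q.eval y) x := Q.differentiable.analyticAt x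
  exact h1.div h2 hx

/-- every multiset with `k` elements is the multiset of the entries of a tuple -/
theorem br_tuple {k : ℕ} (s : Multiset ℂ) (hs : Multiset.card s = k) :
    ∃ z : Fin k → ℂ, (Finset.univ.val.map z : Multiset ℂ) = s := by
  obtain ⟨L, rfl⟩ := Quot.exists_rep s
  have hL : L.length = k := hs
  subst hL
  refine ⟨L.get, ?_⟩
  rw [Fin.univ_val_map]
  exact congrArg _ (List.ofFn_get L)

/-- the branches for a rational function -/
theorem br_main (D : ℕ) (hD : 1 ≤ D) (P Q : ℂ[X]) (E : Finset ℂ)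
    (hE : ∀ z, z ∉ E → (P - C z * Q).roots.Nodup ∧ Multiset.card (P - C z * Q).roots = D ∧
      ∀ x ∈ (P - C z * Q).roots, Q.eval x ≠ 0 ∧
        deriv (fun y => P.eval y / Q.eval y) x ≠ 0) (z₀ : ℂ) (hz₀ : z₀ ∉ E) :
    ∃ ρ : ℝ, 0 < ρ ∧ ∃ ξ : Fin D → ℂ → ℂ,
    (∀ i, DifferentiableOn ℂ (ξ i) (Metric.ball z₀ ρ)) ∧
    ∀ z ∈ Metric.ball z₀ ρ, z ∉ E ∧ (Function.Injective fun i => ξ i z) ∧
      (P - C z * Q).roots = Finset.univ.val.map (fun i => ξ i z) ∧
      ∀ i, Q.eval (ξ i z) ≠ 0 ∧ deriv (fun y => P.eval y / Q.eval y) (ξ i z) ≠ 0 ∧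
        HasDerivAt (ξ i) (deriv (fun y => P.eval y / Q.eval y) (ξ i z))⁻¹ z := by
  obtain ⟨hn, hc, hr⟩ := hE z₀ hz₀
  obtain ⟨x, hx⟩ := br_tuple _ hc
  obtain ⟨h, hh⟩ : ∃ h : ℂ → ℂ, h = fun y => P.eval y / Q.eval y := ⟨_, rfl⟩
  rw [← hh] at hr ⊢
  have hinj : Function.Injective x := by
    rw [← hx] at hn
    exact Fintype.nodup_map_univ_iff_injective.1 hn
  have hmem : ∀ i, x i ∈ (P - C z₀ * Q).roots := by
    intro i
    rw [← hx]
    exact Multiset.mem_map_of_mem x (Finset.mem_univ_val i)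
  have hQ : ∀ i, Q.eval (x i) ≠ 0 := fun i => (hr _ (hmem i)).1
  have hval : ∀ i, h (x i) = z₀ := by
    intro i
    have h1 := isRoot_of_mem_roots (hmem i)
    rw [IsRoot.def, eval_sub, eval_mul, eval_C] at h1
    rw [hh]
    change P.eval (x i) / Q.eval (x i) = z₀
    rw [div_eq_iff (hQ i)]
    linear_combination h1
  have han : ∀ y, Q.eval y ≠ 0 → AnalyticAt ℂ h y := by
    intro y hy
    rw [hh]
    exact rat_analytic P Q hy
  have hloc : ∀ i, ∃ ξ : ℂ → ℂ, ContinuousAt ξ z₀ ∧ ξ z₀ = x i ∧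
      ∀ᶠ z in 𝓝 z₀, ContinuousAt ξ z ∧ ∀ᶠ y in 𝓝 z, h (ξ y) = y := by
    intro i
    have h1 := br_loc (han _ (hQ i)) (hr _ (hmem i)).2
    rw [hval i] at h1
    exact h1
  choose ξ hξc hξ0 hξ using hloc
  have hev : ∀ᶠ z in 𝓝 z₀, z ∉ E ∧ (∀ i, (ContinuousAt (ξ i) z ∧ ∀ᶠ y in 𝓝 z, h (ξ i y) = y) ∧
      Q.eval (ξ i z) ≠ 0 ∧ deriv h (ξ i z) ≠ 0) ∧ ∀ i j, i ≠ j → ξ i z ≠ ξ j z := by
    have e1 : ∀ᶠ z in 𝓝 z₀, z ∉ E := by
      have h1 : (E : Set ℂ)ᶜ ∈ 𝓝 z₀ :=
        (Finset.finite_toSet E).isClosed.isOpen_compl.mem_nhds (by exact_mod_cast hz₀)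
      filter_upwards [h1] with z hz
      exact_mod_cast hz
    have e2 : ∀ᶠ z in 𝓝 z₀, ∀ i, (ContinuousAt (ξ i) z ∧ ∀ᶠ y in 𝓝 z, h (ξ i y) = y) ∧
        Q.eval (ξ i z) ≠ 0 ∧ deriv h (ξ i z) ≠ 0 := by
      rw [Filter.eventually_all]
      intro i
      have h1 : ∀ᶠ z in 𝓝 z₀, Q.eval (ξ i z) ≠ 0 := by
        have h2 : Tendsto (fun z => Q.eval (ξ i z)) (𝓝 z₀) (𝓝 (Q.eval (x i))) := by
          have h3 : ContinuousAt (fun z => Q.eval (ξ i z)) z₀ :=
            Q.continuous.continuousAt.comp (hξc i)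
          have h4 := h3.tendsto
          rwa [hξ0 i] at h4
        exact h2.eventually_ne (hQ i)
      have h5 : ∀ᶠ z in 𝓝 z₀, deriv h (ξ i z) ≠ 0 := by
        have h6 : ContinuousAt (deriv h) (ξ i z₀) := by
          rw [hξ0 i]
          exact (han _ (hQ i)).deriv.continuousAt
        have h3 : ContinuousAt (fun z => deriv h (ξ i z)) z₀ :=
          ContinuousAt.comp (g := deriv h) h6 (hξc i)
        have h4 := h3.tendsto
        rw [hξ0 i] at h4
        exact h4.eventually_ne (hr _ (hmem i)).2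
      filter_upwards [hξ i, h1, h5] with z a b c
      exact ⟨a, b, c⟩
    have e3 : ∀ᶠ z in 𝓝 z₀, ∀ i j, i ≠ j → ξ i z ≠ ξ j z := by
      rw [Filter.eventually_all]
      intro i
      rw [Filter.eventually_all]
      intro j
      by_cases hij : i = j
      · exact Eventually.of_forall fun z h => absurd hij h
      · have h1 : ContinuousAt (fun z => ξ i z - ξ j z) z₀ := (hξc i).sub (hξc j)
        have h2 := h1.tendsto
        rw [hξ0 i, hξ0 j] at h2
        have h3 : x i - x j ≠ 0 := sub_ne_zero.2 fun h => hij (hinj h)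
        filter_upwards [h2.eventually_ne h3] with z hz _ hcon
        exact hz (sub_eq_zero.2 hcon)
    filter_upwards [e1, e2, e3] with z a b c
    exact ⟨a, b, c⟩
  obtain ⟨ρ, hρ, hball⟩ := Metric.eventually_nhds_iff_ball.1 hev
  have hder : ∀ z ∈ Metric.ball z₀ ρ, ∀ i, HasDerivAt (ξ i) (deriv h (ξ i z))⁻¹ z := by
    intro z hz i
    obtain ⟨-, h1, -⟩ := hball z hz
    obtain ⟨⟨h2, h3⟩, h4, h5⟩ := h1 i
    exact HasDerivAt.of_local_left_inverse h2 (han _ h4).differentiableAt.hasDerivAt h5 h3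
  refine ⟨ρ, hρ, ξ, ?_, ?_⟩
  · intro i z hz
    exact (hder z hz i).differentiableAt.differentiableWithinAt
  · intro z hz
    obtain ⟨hzE, h1, h2⟩ := hball z hz
    have hi : Function.Injective fun i => ξ i z := by
      intro i j hij
      by_contra hne
      exact h2 i j hne hij
    refine ⟨hzE, hi, ?_, fun i => ⟨(h1 i).2.1, (h1 i).2.2, hder z hz i⟩⟩
    obtain ⟨hn', hc', -⟩ := hE z hzE
    have hne : P - C z * Q ≠ 0 := by
      intro h0
      rw [h0, roots_zero, Multiset.card_zero] at hc'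
      omega
    have hle : (Finset.univ.val.map (fun i => ξ i z) : Multiset ℂ) ≤ (P - C z * Q).roots := by
      rw [Multiset.le_iff_subset (Fintype.nodup_map_univ_iff_injective.2 hi)]
      intro w hw
      obtain ⟨i, -, rfl⟩ := Multiset.mem_map.1 hw
      rw [mem_roots hne, IsRoot.def, eval_sub, eval_mul, eval_C]
      have h3 := (h1 i).1.2.self_of_nhds
      rw [hh] at h3
      change P.eval (ξ i z) / Q.eval (ξ i z) = z at h3
      rw [div_eq_iff (h1 i).2.1] at h3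
      linear_combination h3
    exact (Multiset.eq_of_le_of_card_le hle (by simp [hc'])).symm

theorem pf_BR (h1 : Pool.Agent.H83.UE.T_IT) (h2 : Pool.Agent.H83.UE.T_SIM) :
    Pool.Agent.H83.UE.T_BR := by
  intro d hd g n
  obtain ⟨hP, hQ, hPQ, hco, -⟩ := h1 d hd g n
  have hD : 1 ≤ d ^ n := Nat.one_le_pow _ _ hd
  obtain ⟨E, hE⟩ := h2 (d ^ n) (g.it n).1 (g.it n).2 hD hco hP hQ hPQ
  refine ⟨E, fun z₀ hz₀ => ?_⟩
  exact br_main (d ^ n) hD (g.it n).1 (g.it n).2 E hE z₀ hz₀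

end Pool.Agent.H19.UDA
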