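import Pool.Agent.H83.UE.Targets2

/-!
# The sum over `f^(-n)(V)` in terms of root tuples (row CO1)
-/

set_option autoImplicit false

open Polynomial MeasureTheory Filter Topology Set
open scoped OnePoint ComplexConjugate ComplexOrder Laplacian ENNReal Nat

namespace Pool.Agent.H19.UDA

open Pool.Agent.H83.UE

theorem pf_CO1 (h1 : Pool.Agent.H83.UE.T_MON) : Pool.Agent.H83.UE.T_CO1 := by
  classical
  intro k m d g n V L χ y hfin
  obtain ⟨hm, hroots, hsurj, hcard, hreg, hreg'⟩ := h1 k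
  have hXW : ∀ x : Fin k → ℂ, (RegT g n x ∧ coef (valT g n x) ∈ V ∧ L (coef x) = y) ↔
      (Reg g n (coef x) ∧ ueda g n (coef x) ∈ V ∧ L (coef x) = y) := by
    intro x
    constructor
    · rintro ⟨a, b, c⟩
      obtain ⟨h2, h3⟩ := hreg x d g n a
      exact ⟨h2, by rw [h3]; exact b, c⟩
    · rintro ⟨a, b, c⟩
      have h2 := hreg' x d g n a
      exact ⟨h2, by rw [← (hreg x d g n h2).2]; exact b, c⟩
  obtain ⟨F, hF⟩ : ∃ F : (Fin k → ℂ) → ℂ, ∀ x, F x =
      (stab (Finset.univ.val.map (valT g n x)) : ℂ) *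
        (∏ l, ((g.fib n (valT g n x l)).rootMultiplicity (x l) : ℂ)) * χ (coef x) :=
    ⟨_, fun _ => rfl⟩
  obtain ⟨H, hH⟩ : ∃ H : (Fin k → ℂ) → ℂ, ∀ w, H w =
      (stab ((mon w).roots.map (g.val n)) : ℂ) *
        ((mon w).roots.map fun x => ((g.fib n (g.val n x)).rootMultiplicity x : ℂ)).prod * χ w :=
    ⟨_, fun _ => rfl⟩
  have hFH : ∀ x, F x = H (coef x) := by
    intro x
    rw [hF, hH, (hroots x).2, Multiset.map_map, Multiset.map_map]
    rfl
  have hst0 : ∀ w : Fin k → ℂ, (stab (mon w).roots : ℂ) ≠ 0 := by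
    intro w h
    have h2 := (hcard w).2
    have h3 : stab (mon w).roots = 0 := by exact_mod_cast h
    rw [h3, mul_zero] at h2
    exact (Nat.factorial_ne_zero k) h2.symm
  have hHu : ∀ w, H w = stab (mon w).roots * (udeg g n w * χ w) := by
    intro w
    rw [hH]
    unfold udeg
    field_simp [hst0 w]
  obtain ⟨A, hA⟩ : ∃ A : Finset (Fin k → ℂ), ∀ x, x ∈ A ↔
      (RegT g n x ∧ coef (valT g n x) ∈ V ∧ L (coef x) = y) ∧ χ (coef x) ≠ 0 := by
    refine ⟨hfin.toFinset, fun x => ?_⟩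
    rw [Set.Finite.mem_toFinset]
    change (RegT g n x ∧ coef (valT g n x) ∈ V ∧ L (coef x) = y ∧ χ (coef x) ≠ 0) ↔ _
    tauto
  have hR : ∑ᶠ x ∈ {x : Fin k → ℂ | RegT g n x ∧ coef (valT g n x) ∈ V ∧ L (coef x) = y},
        (stab (Finset.univ.val.map (valT g n x)) : ℂ) *
          (∏ l, ((g.fib n (valT g n x l)).rootMultiplicity (x l) : ℂ)) * χ (coef x) =
      ∑ x ∈ A, F x := by
    simp only [← hF]
    refine finsum_mem_eq_sum_of_inter_support_eq F ?_
    ext x
    simp only [Set.mem_inter_iff, Finset.mem_coe, hA, Function.mem_support]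
    constructor
    · rintro ⟨h2, h3⟩
      refine ⟨⟨h2, fun h4 => h3 ?_⟩, h3⟩
      rw [hF, h4, mul_zero]
    · rintro ⟨⟨h2, -⟩, h3⟩
      exact ⟨h2, h3⟩
  have hL : ∑ᶠ w ∈ {w | Reg g n w ∧ ueda g n w ∈ V ∧ L w = y}, udeg g n w * χ w =
      ∑ w ∈ A.image coef, udeg g n w * χ w := by
    refine finsum_mem_eq_sum_of_inter_support_eq (fun w => udeg g n w * χ w) ?_
    ext w
    simp only [Set.mem_inter_iff, Finset.mem_coe, Finset.mem_image, Function.mem_support]
    constructor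
    · rintro ⟨h2, h3⟩
      obtain ⟨x, rfl⟩ := hsurj w
      exact ⟨⟨x, (hA x).2 ⟨(hXW x).2 h2, fun h4 => h3 (by rw [h4, mul_zero])⟩, rfl⟩, h3⟩
    · rintro ⟨⟨x, h2, rfl⟩, h3⟩
      exact ⟨(hXW x).1 ((hA x).1 h2).1, h3⟩
  rw [hR, hL, ← Finset.sum_fiberwise_of_maps_to (s := A) (t := A.image coef) (g := coef)
    (fun x hx => Finset.mem_image_of_mem coef hx) F, Finset.mul_sum]
  refine Finset.sum_congr rfl fun w hw => ?_
  obtain ⟨x₀, hx₀, rfl⟩ := Finset.mem_image.1 hw
  have h2 : ∑ x ∈ A.filter (fun x => coef x = coef x₀), F x =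
      ∑ x ∈ A.filter (fun x => coef x = coef x₀), H (coef x₀) := by
    refine Finset.sum_congr rfl fun x hx => ?_
    rw [hFH, (Finset.mem_filter.1 hx).2]
  have h3 : ((A.filter fun x => coef x = coef x₀ : Finset (Fin k → ℂ)) : Set (Fin k → ℂ)) =
      {z : Fin k → ℂ | coef z = coef x₀} := by
    ext z
    simp only [Finset.coe_filter, Set.mem_ofPred_eq]
    constructor
    · rintro ⟨-, h4⟩
      exact h4
    · intro h4
      refine ⟨(hA z).2 ?_, h4⟩
      obtain ⟨h5, h6⟩ := (hA x₀).1 hx₀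
      refine ⟨(hXW z).2 ?_, ?_⟩
      · rw [h4]
        exact (hXW x₀).1 h5
      · rw [h4]
        exact h6
  have h4 : (A.filter fun x => coef x = coef x₀).card =
      Nat.card {z : Fin k → ℂ // coef z = coef x₀} := by
    rw [← Set.ncard_coe_finset, h3]
    rfl
  have h5 : ((A.filter fun x => coef x = coef x₀).card : ℂ) * stab (mon (coef x₀)).roots =
      (k ! : ℂ) := by
    rw [h4]
    exact_mod_cast (hcard (coef x₀)).2
  have h6 : (k ! : ℂ) ≠ 0 := by exact_mod_cast Nat.factorial_ne_zero k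
  rw [h2, Finset.sum_const, nsmul_eq_mul, hHu]
  generalize udeg g n (coef x₀) * χ (coef x₀) = u
  generalize ((A.filter fun x => coef x = coef x₀).card : ℂ) = a at h5 ⊢
  generalize (stab (mon (coef x₀)).roots : ℂ) = b at h5 ⊢
  rw [← mul_assoc a, h5, ← mul_assoc, inv_mul_cancel₀ h6, one_mul]

end Pool.Agent.H19.UDA
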