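import Pool.Agent.H83.UE.Targets2

/-!
# Polynomials and their roots (row MON)
-/

set_option autoImplicit false

open Polynomial MeasureTheory Filter Topology Set
open scoped OnePoint ComplexConjugate ComplexOrder Laplacian ENNReal Nat

namespace Pool.Agent.H19.UDA

open Pool.Agent.H83.UE

theorem mon_monic {k : ℕ} (w : Fin k → ℂ) : (mon w).Monic :=
  monic_X_pow_add (degree_sum_fin_lt w)

theorem mon_natDegree {k : ℕ} (w : Fin k → ℂ) : (mon w).natDegree = k :=
  natDegree_eq_of_degree_eq_some (by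
    unfold mon
    rw [degree_add_eq_left_of_degree_lt (by rw [degree_X_pow]; exact degree_sum_fin_lt w),
      degree_X_pow])

theorem mon_card {k : ℕ} (w : Fin k → ℂ) : Multiset.card (mon w).roots = k := by
  rw [IsAlgClosed.card_roots_eq_natDegree, mon_natDegree]

theorem mon_coeff {k : ℕ} (w : Fin k → ℂ) (i : Fin k) : (mon w).coeff i = w i := by
  unfold mon
  rw [coeff_add, coeff_X_pow, if_neg i.2.ne, zero_add, finsetSum_coeff]
  rw [Finset.sum_eq_single i]
  · rw [coeff_C_mul, coeff_X_pow, if_pos rfl, mul_one]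
  · intro j _ hj
    rw [coeff_C_mul, coeff_X_pow, if_neg (fun h => hj (Fin.ext h.symm)), mul_zero]
  · intro h
    exact absurd (Finset.mem_univ i) h

/-- a monic polynomial of degree `k` is given by its coefficients -/
theorem mon_of_monic {k : ℕ} {P : ℂ[X]} (hP : P.Monic) (hd : P.natDegree = k) :
    mon (fun i : Fin k => P.coeff i) = P := by
  have h := hP.as_sum
  rw [hd] at h
  unfold mon
  conv_rhs => rw [h]
  rw [Finset.sum_range]

theorem prod_map {k : ℕ} (z : Fin k → ℂ) :
    ∏ l, (X - C (z l)) = ((Finset.univ.val.map z).map fun a => X - C a).prod := by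
  rw [Multiset.map_map]
  rfl

theorem prod_monic {k : ℕ} (z : Fin k → ℂ) : (∏ l, (X - C (z l)) : ℂ[X]).Monic :=
  monic_prod_of_monic _ _ fun l _ => monic_X_sub_C (z l)

theorem prod_natDegree {k : ℕ} (z : Fin k → ℂ) : (∏ l, (X - C (z l)) : ℂ[X]).natDegree = k := by
  rw [natDegree_prod_of_monic _ _ fun l _ => monic_X_sub_C (z l)]
  simp

theorem mon_coef {k : ℕ} (z : Fin k → ℂ) : mon (coef z) = ∏ l, (X - C (z l)) :=
  mon_of_monic (prod_monic z) (prod_natDegree z)

theorem roots_coef {k : ℕ} (z : Fin k → ℂ) :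
    (mon (coef z)).roots = Finset.univ.val.map z := by
  rw [mon_coef, prod_map, roots_multiset_prod_X_sub_C]

/-- `coef` depends only on the multiset of the entries -/
theorem coef_congr {k : ℕ} {z z' : Fin k → ℂ}
    (h : (Finset.univ.val.map z : Multiset ℂ) = Finset.univ.val.map z') : coef z = coef z' := by
  funext i
  unfold coef
  rw [prod_map, prod_map, h]

theorem coef_eq_iff {k : ℕ} (z z' : Fin k → ℂ) : coef z = coef z' ↔
    (Finset.univ.val.map z : Multiset ℂ) = Finset.univ.val.map z' := by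
  refine ⟨fun h => ?_, coef_congr⟩
  rw [← roots_coef, ← roots_coef, h]

/-- every multiset with `k` elements is the multiset of the entries of a tuple -/
theorem exists_tuple {k : ℕ} (s : Multiset ℂ) (hs : Multiset.card s = k) :
    ∃ z : Fin k → ℂ, (Finset.univ.val.map z : Multiset ℂ) = s := by
  obtain ⟨L, rfl⟩ := Quot.exists_rep s
  have hL : L.length = k := hs
  subst hL
  refine ⟨L.get, ?_⟩
  rw [Fin.univ_val_map]
  exact congrArg _ (List.ofFn_get L)

theorem coef_surj {k : ℕ} (w : Fin k → ℂ) : ∃ z : Fin k → ℂ, coef z = w := by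
  obtain ⟨z, hz⟩ := exists_tuple (mon w).roots (mon_card w)
  refine ⟨z, ?_⟩
  have h1 : ∏ l, (X - C (z l)) = mon w := by
    rw [prod_map, hz]
    exact prod_multiset_X_sub_C_of_monic_of_roots_card_eq (mon_monic w)
      (by rw [mon_card, mon_natDegree])
  funext i
  unfold coef
  rw [h1, mon_coeff]

/-! ### The number of the tuples -/

theorem exists_perm {k : ℕ} {z z₀ : Fin k → ℂ}
    (h : (Finset.univ.val.map z : Multiset ℂ) = Finset.univ.val.map z₀) :
    ∃ σ : Equiv.Perm (Fin k), z₀ ∘ σ = z := by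
  classical
  have hc : ∀ y : ℂ, Fintype.card {x // z x = y} = Fintype.card {x // z₀ x = y} := by
    intro y
    have h1 := congrArg (Multiset.count y) h
    rw [Multiset.count_map, Multiset.count_map] at h1
    rw [Fintype.card_subtype, Fintype.card_subtype]
    simp only [eq_comm (a := y)] at h1
    exact h1
  refine ⟨(Equiv.sigmaFiberEquiv z).symm.trans ((Equiv.sigmaCongrRight fun y =>
    Fintype.equivOfCardEq (hc y)).trans (Equiv.sigmaFiberEquiv z₀)), ?_⟩
  funext a
  exact (Fintype.equivOfCardEq (hc (z a)) ⟨a, rfl⟩).2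

theorem card_tuples {k : ℕ} (z₀ : Fin k → ℂ) :
    Nat.card {z : Fin k → ℂ // (Finset.univ.val.map z : Multiset ℂ) = Finset.univ.val.map z₀} *
      Nat.card {g : Equiv.Perm (Fin k) // z₀ ∘ g = z₀} = k ! := by
  have h1 := Nat.card_congr (MulAction.orbitProdStabilizerEquivGroup (Equiv.Perm (Fin k))ᵈᵐᵃ z₀)
  rw [Nat.card_prod] at h1
  have h2 : Nat.card (Equiv.Perm (Fin k))ᵈᵐᵃ = k ! := by
    rw [← Nat.card_congr (DomMulAct.mk : Equiv.Perm (Fin k) ≃ (Equiv.Perm (Fin k))ᵈᵐᵃ),
      Nat.card_perm, Nat.card_fin]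
  have h3 : Nat.card {g : Equiv.Perm (Fin k) // z₀ ∘ g = z₀} =
      Nat.card (MulAction.stabilizer (Equiv.Perm (Fin k))ᵈᵐᵃ z₀) :=
    Nat.card_congr (Equiv.subtypeEquiv DomMulAct.mk fun g => by
      rw [DomMulAct.mem_stabilizer_iff]
      rfl)
  have h4 : MulAction.orbit (Equiv.Perm (Fin k))ᵈᵐᵃ z₀ =
      {z : Fin k → ℂ | (Finset.univ.val.map z : Multiset ℂ) = Finset.univ.val.map z₀} := by
    ext z
    rw [MulAction.mem_orbit_iff]
    constructor
    · rintro ⟨g, rfl⟩
      change (Finset.univ.val.map (z₀ ∘ (DomMulAct.mk.symm g : Equiv.Perm (Fin k))) :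
        Multiset ℂ) = _
      rw [← Multiset.map_map, Multiset.map_univ_val_equiv]
    · intro h
      obtain ⟨σ, hσ⟩ := exists_perm h
      exact ⟨DomMulAct.mk σ, hσ⟩
  rw [← h3, h2, h4] at h1
  exact h1

theorem card_stab {k : ℕ} (z₀ : Fin k → ℂ) :
    Nat.card {g : Equiv.Perm (Fin k) // z₀ ∘ g = z₀} = stab (Finset.univ.val.map z₀) := by
  classical
  rw [Nat.card_eq_fintype_card, DomMulAct.stabilizer_card']
  unfold stab
  have h1 : (Finset.univ.val.map z₀).toFinset = Finset.univ.image z₀ := by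
    ext x
    simp
  rw [h1]
  refine Finset.prod_congr rfl fun x _ => ?_
  rw [Multiset.count_map, Fintype.card_subtype]
  simp only [eq_comm (a := x)]
  rfl

theorem pf_MON : Pool.Agent.H83.UE.T_MON := by
  intro k
  have hreg : ∀ (z : Fin k → ℂ) (d : ℕ) (g : RatMap d) (n : ℕ),
      Reg g n (coef z) ↔ RegT g n z := by
    intro z d g n
    unfold Reg RegT
    rw [roots_coef]
    simp only [Multiset.mem_map, Finset.mem_val, Finset.mem_univ, true_and]
    constructor
    · intro h l
      exact h (z l) ⟨l, rfl⟩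
    · rintro h _ ⟨l, rfl⟩
      exact h l
  refine ⟨fun w => ⟨mon_monic w, mon_natDegree w, mon_card w⟩,
    fun z => ⟨mon_coef z, roots_coef z⟩, coef_surj, ?_, ?_, ?_⟩
  · intro w
    obtain ⟨z₀, hz₀⟩ := coef_surj w
    have h1 : {z : Fin k → ℂ | coef z = w} =
        {z : Fin k → ℂ | (Finset.univ.val.map z : Multiset ℂ) = Finset.univ.val.map z₀} := by
      ext z
      change coef z = w ↔ _
      rw [← hz₀, coef_eq_iff]
      rfl
    have h2 : (mon w).roots = Finset.univ.val.map z₀ := by rw [← hz₀, roots_coef]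
    constructor
    · rw [h1]
      have h3 : (Set.range fun σ : Equiv.Perm (Fin k) => z₀ ∘ σ).Finite := Set.finite_range _
      refine h3.subset ?_
      intro z hz
      obtain ⟨σ, hσ⟩ := exists_perm hz
      exact ⟨σ, hσ⟩
    · rw [h2, ← card_stab]
      have h3 := card_tuples z₀
      have h4 : Nat.card {z : Fin k → ℂ // coef z = w} =
          Nat.card {z : Fin k → ℂ // (Finset.univ.val.map z : Multiset ℂ) =
            Finset.univ.val.map z₀} := by
        change Nat.card {z : Fin k → ℂ | coef z = w} = _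
        rw [h1]
        rfl
      rw [h4]
      exact h3
  · intro z d g n h
    refine ⟨(hreg z d g n).2 h, ?_⟩
    funext i
    change (((mon (coef z)).roots.map fun x => X - C (g.val n x)).prod).coeff i =
      (∏ l, (X - C (g.val n (z l)))).coeff i
    rw [roots_coef, Multiset.map_map]
    rfl
  · intro z d g n h
    exact (hreg z d g n).1 h

end Pool.Agent.H19.UDA
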